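import Pool.Agent.H18.GW.Targets2

set_option autoImplicit false

namespace Pool.Agent.H97.GWD

open Pool.Agent.H18.GW

theorem pf_CI : T_CI := by
  intro G _ _ S H ρ i hS hH
  refine ⟨(H.map S.subtype).normalCore, inferInstance, Subgroup.normalCore_le _, ?_⟩
  have h1 : (H.map S.subtype).index ≤ ρ * i := by
    rw [Subgroup.index_map_subtype, mul_comm ρ i]
    exact Nat.mul_le_mul hH hS
  refine le_trans ?_ (Nat.factorial_le h1)
  rw [Subgroup.normalCore_eq_ker, Subgroup.index_ker]
  refine (Nat.card_le_card_of_injective (Subtype.val :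
    (MulAction.toPermHom G (G ⧸ H.map S.subtype)).range → _) Subtype.val_injective).trans ?_
  rw [Nat.card_perm]
  rfl

end Pool.Agent.H97.GWD
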