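import Pool.Agent.H18.GW.Targets
import Pool.Agent.H47.EL.ST

set_option autoImplicit false

open scoped commutatorElement

namespace Pool.Agent.H97.GWD

open Pool.Agent.H18.GW Pool.Agent.H11.EL Pool.Agent.H47.EL

theorem pf_SX : T_SX := by
  intro G _ _ hsol N hN hnil
  have hne : ({X : Subgroup G | X.Normal ∧ X ≠ ⊥ ∧ ⁅X, (⊤ : Subgroup G)⁆ = X ∧ X ≤ N}).Nonempty := by
    obtain ⟨j, hj⟩ := itc_stat N hN
    refine ⟨itc N j, itc_normal _ hN j, ?_, hj, itc_anti N hN (Nat.zero_le j)⟩
    intro hbot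
    refine hnil (0 + j) ?_
    refine le_ucs_of_itc N j 0 ?_
    rw [hbot]
    exact bot_le
  obtain ⟨M, ⟨hMn, hMbot, hMtop, hMN⟩, hMmin⟩ :=
    (wellFounded_lt (α := Subgroup G)).has_min _ hne
  obtain ⟨k, hk⟩ := WellFoundedGT.monotone_chain_condition
    (⟨Subgroup.upperCentralSeries G, Subgroup.upperCentralSeries_mono G⟩ : ℕ →o Subgroup G)
  have hk' : ∀ j, Subgroup.upperCentralSeries G j ≤ Subgroup.upperCentralSeries G k := by
    intro j
    rcases le_total k j with h | h
    · exact (hk j h).ge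
    · exact Subgroup.upperCentralSeries_mono G h
  have hmin : ∀ L : Subgroup G, L.Normal → L ≤ M → L ≠ M →
      L ≤ M ⊓ Subgroup.upperCentralSeries G k := by
    intro L hL hLM hne
    refine le_inf hLM ?_
    obtain ⟨j, hj⟩ := itc_stat L hL
    have h1 : itc L j ≤ L := itc_anti L hL (Nat.zero_le j)
    have h2 : itc L j < M := lt_of_le_of_lt h1 (lt_of_le_of_ne hLM hne)
    have h3 : itc L j = ⊥ := by
      by_contra h
      exact hMmin _ ⟨itc_normal L hL j, h, hj, h2.le.trans hMN⟩ h2
    refine (le_ucs_of_itc L j 0 ?_).trans (hk' _)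
    rw [h3]
    exact bot_le
  have hucs : (Subgroup.upperCentralSeries G k).Normal := inferInstance
  refine ⟨M, M ⊓ Subgroup.upperCentralSeries G k, hMN, ?_⟩
  refine ⟨hMn, inferInstance, ?_, hMtop, ?_, hmin, ?_⟩
  · refine lt_of_le_of_ne inf_le_left ?_
    intro h
    exact hMbot (eq_bot_of_le M hMtop k (inf_eq_left.1 h))
  · refine hmin _ inferInstance (Subgroup.commutator_le_left _ _) ?_
    intro h
    have hall : ∀ n, M ≤ derivedSeries G n := by
      intro n
      induction n with
      | zero => exact le_top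
      | succ n ih =>
        rw [derivedSeries_succ]
        calc M = ⁅M, M⁆ := h.symm
          _ ≤ _ := Subgroup.commutator_mono ih ih
    obtain ⟨n, hn⟩ := hsol.solvable
    exact hMbot (le_bot_iff.1 (hn ▸ hall n))
  · intro z hz m hm
    have h1 := ucs_comm M hMn hMtop k
    have h2 : ⁅z, m⁆ ∈ (⁅Subgroup.upperCentralSeries G k, M⁆ : Subgroup G) :=
      Subgroup.commutator_mem_commutator hz.2 hm
    rw [h1, Subgroup.mem_bot, commutatorElement_eq_one_iff_mul_comm] at h2
    exact h2

end Pool.Agent.H97.GWD
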